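import Mathlib

set_option autoImplicit false

open Topology Filter

namespace Pool.Agent.Results.MP_12cf7c_an.NoCriticalPoint

/-- The flat torus `𝕋ⁿ = ℝⁿ/ℤⁿ`. -/
abbrev Torus (n : ℕ) : Type := Fin n → UnitAddCircle

/-- Euclidean space `ℝⁿ`. -/
abbrev E (n : ℕ) : Type := EuclideanSpace ℝ (Fin n)

/-- The covering projection `ℝⁿ → 𝕋ⁿ`. -/
def proj {n : ℕ} (a : E n) : Torus n := fun i => ((a i : ℝ) : UnitAddCircle)

/-- `u` is a (global, continuous) viscosity subsolution of `H(x,Du(x)) = c` on `𝕋ⁿ`: whenever a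
function `φ`, of class `C¹` near a lift `a ∈ ℝⁿ` of a point of the torus, is such that `u - φ` has
a local maximum at `a`, one has `H(a, Dφ(a)) ≤ c`. -/
def IsSubsolution {n : ℕ} (H : Torus n → E n → ℝ) (c : ℝ) (u : Torus n → ℝ) : Prop :=
  Continuous u ∧ ∀ (a : E n) (φ : E n → ℝ), ContDiffAt ℝ 1 φ a →
    IsLocalMax (fun y => u (proj y) - φ y) a → H (proj a) (gradient φ a) ≤ c

/-- `u` is a (global, continuous) viscosity supersolution of `H(x,Du(x)) = c` on `𝕋ⁿ`. -/
def IsSupersolution {n : ℕ} (H : Torus n → E n → ℝ) (c : ℝ) (u : Torus n → ℝ) : Prop :=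
  Continuous u ∧ ∀ (a : E n) (φ : E n → ℝ), ContDiffAt ℝ 1 φ a →
    IsLocalMin (fun y => u (proj y) - φ y) a → c ≤ H (proj a) (gradient φ a)

/-- `H(x,p)/|p| → +∞` as `|p| → ∞`, uniformly in `x`. -/
def Superlinear {n : ℕ} (H : Torus n → E n → ℝ) : Prop :=
  ∀ M : ℝ, ∃ r : ℝ, ∀ (x : Torus n) (p : E n), r ≤ ‖p‖ → M * ‖p‖ ≤ H x p

/-- The critical value `c₀`: the infimum of the `c` for which `H(x,Du(x)) = c` has a global
viscosity subsolution. -/
noncomputable def critVal {n : ℕ} (H : Torus n → E n → ℝ) : ℝ :=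
  sInf {c : ℝ | ∃ u, IsSubsolution H c u}

/-- The set of numbers `u(y) - u(x)`, `u` running over the viscosity subsolutions at the critical
level. -/
def increments {n : ℕ} (H : Torus n → E n → ℝ) (x y : Torus n) : Set ℝ :=
  {r : ℝ | ∃ u, IsSubsolution H (critVal H) u ∧ r = u y - u x}

/-- The function `S_x(y) = sup {u(y) - u(x) : u ∈ 𝒮𝒮}`. -/
noncomputable def S {n : ℕ} (H : Torus n → E n → ℝ) (x y : Torus n) : ℝ :=
  sSup (increments H x y)

/-! ### The flat distance -/

variable {n : ℕ}

/-- the flat distance to the origin of the torus -/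
noncomputable def D (θ : Torus n) : ℝ := ‖(WithLp.toLp 2 (fun i => ‖θ i‖) : E n)‖

lemma continuous_D : Continuous (D : Torus n → ℝ) := by
  unfold D
  refine continuous_norm.comp ((PiLp.continuous_toLp 2 _).comp ?_)
  fun_prop

lemma D_nonneg (θ : Torus n) : 0 ≤ D θ := norm_nonneg _

lemma D_eq (θ : Torus n) : D θ = √(∑ i, ‖θ i‖ ^ 2) := by
  unfold D
  rw [EuclideanSpace.norm_eq]
  simp

lemma norm_mono {a b : E n} (h : ∀ i, |a i| ≤ |b i|) : ‖a‖ ≤ ‖b‖ := by
  rw [EuclideanSpace.norm_eq, EuclideanSpace.norm_eq]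
  refine Real.sqrt_le_sqrt (Finset.sum_le_sum fun i _ => ?_)
  rw [Real.norm_eq_abs, Real.norm_eq_abs]
  have := h i
  gcongr

lemma D_zero : D (0 : Torus n) = 0 := by
  rw [D_eq]; simp

lemma D_add_le (θ η : Torus n) : D (θ + η) ≤ D θ + D η := by
  unfold D
  refine le_trans (norm_mono (b := WithLp.toLp 2 (fun i => ‖θ i‖) + WithLp.toLp 2 (fun i => ‖η i‖))
    (fun i => ?_)) (norm_add_le _ _)
  simp only [Pi.add_apply, abs_norm, PiLp.add_apply]
  rw [abs_of_nonneg (by positivity)]
  exact norm_add_le _ _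

lemma proj_sub (a b : E n) : proj (a - b) = proj a - proj b := by
  funext i
  simp [proj]

lemma D_proj_le (a : E n) : D (proj a) ≤ ‖a‖ := by
  unfold D
  refine norm_mono (fun i => ?_)
  rw [abs_norm]
  simp only [proj, UnitAddCircle.norm_eq]
  have := round_le (a i) 0
  simpa using this

/-- every torus point has a lift of minimal norm -/
lemma exists_lift (θ : Torus n) : ∃ a : E n, proj a = θ ∧ ‖a‖ = D θ := by
  have h : ∀ i, ∃ t : ℝ, ((t : ℝ) : UnitAddCircle) = θ i ∧ |t| = ‖θ i‖ := by
    intro i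
    obtain ⟨t, ht⟩ := QuotientAddGroup.mk_surjective (θ i)
    refine ⟨t - round t, ?_, ?_⟩
    · rw [← ht]
      rw [AddCircle.coe_sub]
      have : ((round t : ℝ) : UnitAddCircle) = 0 := by
        rw [AddCircle.coe_eq_zero_iff]
        exact ⟨round t, by simp⟩
      rw [this, sub_zero]
    · rw [← ht]
      change |t - round t| = ‖(t : UnitAddCircle)‖
      rw [UnitAddCircle.norm_eq]
  choose t ht1 ht2 using h
  refine ⟨WithLp.toLp 2 t, ?_, ?_⟩
  · funext i
    exact ht1 i
  · rw [D_eq, EuclideanSpace.norm_eq]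
    congr 1
    refine Finset.sum_congr rfl fun i _ => ?_
    rw [Real.norm_eq_abs]
    change |t i| ^ 2 = _
    rw [ht2]

lemma proj_surjective (θ : Torus n) : ∃ a : E n, proj a = θ := by
  obtain ⟨a, ha, -⟩ := exists_lift θ
  exact ⟨a, ha⟩

lemma continuous_proj : Continuous (proj : E n → Torus n) := by
  refine continuous_pi fun i => ?_
  exact (AddCircle.continuous_mk' 1).comp (by fun_prop)

/-! ### The double-well Hamiltonian -/

/-- `F(p) = (|p|² - 1)²` -/
noncomputable def F (p : E n) : ℝ := (‖p‖ ^ 2 - 1) ^ 2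

/-- the Hamiltonian -/
noncomputable def Ham : Torus n → E n → ℝ := fun _ p => F p

lemma contDiff_F : ContDiff ℝ ⊤ (F : E n → ℝ) := by
  unfold F
  exact ((contDiff_norm_sq ℝ).sub contDiff_const).pow 2

lemma continuous_Ham : Continuous (fun q : Torus n × E n => Ham q.1 q.2) := by
  unfold Ham F
  fun_prop

lemma superlinear_Ham : Superlinear (Ham : Torus n → E n → ℝ) := by
  intro M
  refine ⟨|M| + 2, fun _ p hp => ?_⟩
  have hM := abs_nonneg M
  have hM' := le_abs_self M
  set r := ‖p‖
  change M * r ≤ (r ^ 2 - 1) ^ 2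
  have h1 : M * r ≤ |M| * r := mul_le_mul_of_nonneg_right hM' (by linarith)
  have h2 : |M| * r ≤ (r ^ 2 - 1) * 1 := by nlinarith
  have h3 : (1 : ℝ) ≤ r ^ 2 - 1 := by nlinarith
  have h4 : (r ^ 2 - 1) * 1 ≤ (r ^ 2 - 1) * (r ^ 2 - 1) :=
    mul_le_mul_of_nonneg_left h3 (by linarith)
  nlinarith

lemma F_zero : F (0 : E n) = 1 := by simp [F]

/-- constants are subsolutions at level `1` -/
lemma const_sub : IsSubsolution (Ham : Torus n → E n → ℝ) 1 (fun _ => 0) := by
  refine ⟨continuous_const, fun a φ _ hmax => ?_⟩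
  have hmin : IsLocalMin φ a := by
    have := hmax.neg
    simpa using this
  have hg : gradient φ a = 0 := by
    unfold gradient
    rw [hmin.fderiv_eq_zero, map_zero]
  change F (gradient φ a) ≤ 1
  rw [hg, F_zero]

/-- every level admitting a subsolution is at least `1` -/
lemma one_le_of_sub {c : ℝ} {u : Torus n → ℝ} (hu : IsSubsolution Ham c u) : 1 ≤ c := by
  obtain ⟨x, -, hx⟩ := isCompact_univ.exists_isMaxOn (Set.univ_nonempty (α := Torus n))
    hu.1.continuousOn
  obtain ⟨a, rfl⟩ := proj_surjective x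
  have h := hu.2 a (fun _ => 0) contDiffAt_const (by
    refine Filter.Eventually.of_forall (fun y => ?_)
    have := hx (Set.mem_univ (proj y))
    simpa using this)
  have hg : gradient (fun _ : E n => (0 : ℝ)) a = 0 := by
    unfold gradient
    simp
  rw [hg] at h
  change F (0 : E n) ≤ c at h
  rwa [F_zero] at h

lemma critSet_nonempty : {c : ℝ | ∃ u, IsSubsolution (Ham : Torus n → E n → ℝ) c u}.Nonempty :=
  ⟨1, _, const_sub⟩

lemma critSet_bddBelow : BddBelow {c : ℝ | ∃ u, IsSubsolution (Ham : Torus n → E n → ℝ) c u} :=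
  ⟨1, fun _ ⟨_, hu⟩ => one_le_of_sub hu⟩

lemma critVal_Ham : critVal (Ham : Torus n → E n → ℝ) = 1 :=
  le_antisymm (csInf_le critSet_bddBelow ⟨_, const_sub⟩)
    (le_csInf critSet_nonempty fun _ ⟨_, hu⟩ => one_le_of_sub hu)

lemma F_le_one_iff {p : E n} : F p ≤ 1 ↔ ‖p‖ ≤ √2 := by
  have h0 := norm_nonneg p
  rw [Real.le_sqrt h0 (by norm_num)]
  unfold F
  constructor
  · intro h
    nlinarith [sq_nonneg (‖p‖ ^ 2), sq_nonneg ‖p‖]
  · intro h
    nlinarith [sq_nonneg (‖p‖ ^ 2), sq_nonneg ‖p‖]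

/-- gradient of `y ↦ L * ‖y - a‖` away from `a` -/
lemma norm_gradient_cone {L : ℝ} (hL : 0 ≤ L) {a y : E n} (hy : y ≠ a) :
    ‖gradient (fun z : E n => L * ‖z - a‖) y‖ = L := by
  have hy' : y - a ≠ 0 := sub_ne_zero.mpr hy
  have : Nontrivial (E n) := ⟨⟨y, a, hy⟩⟩
  have hd : DifferentiableAt ℝ (fun z : E n => ‖z‖) (y - a) :=
    (contDiffAt_norm ℝ hy' (n := 1)).differentiableAt (by norm_num)
  have h1 : HasFDerivAt (fun z : E n => L * ‖z - a‖)
      (L • (fderiv ℝ (fun z : E n => ‖z‖) (y - a))) y := by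
    have h2 := hd.hasFDerivAt.comp y ((hasFDerivAt_id y).sub_const a)
    simpa using h2.const_mul L
  unfold gradient
  rw [h1.fderiv, LinearIsometryEquiv.norm_map, norm_smul, Real.norm_of_nonneg hL]
  rw [norm_fderiv_norm hd, mul_one]

/-- subsolutions at level `1` are `√2`-Lipschitz -/
lemma sub_lipschitz {u : Torus n → ℝ} (hu : IsSubsolution Ham 1 u) (a b : E n) :
    u (proj b) - u (proj a) ≤ √2 * ‖b - a‖ := by
  have key : ∀ L : ℝ, √2 < L → u (proj b) - u (proj a) ≤ L * ‖b - a‖ := by
    intro L hL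
    have hs2 : 0 ≤ √2 := Real.sqrt_nonneg 2
    have hL0 : 0 < L := lt_of_le_of_lt hs2 hL
    have hcont : Continuous (fun y : E n => u (proj y) - L * ‖y - a‖) :=
      (hu.1.comp continuous_proj).sub (by fun_prop)
    obtain ⟨x, -, hx⟩ := isCompact_univ.exists_isMaxOn (Set.univ_nonempty (α := Torus n))
      hu.1.continuousOn
    have hlim : Tendsto (fun y : E n => u (proj y) - L * ‖y - a‖) (cocompact (E n)) atBot := by
      have h1 : Tendsto (fun y : E n => (u x + L * ‖a‖) - L * ‖y‖) (cocompact (E n)) atBot := by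
        have h2 : Tendsto (fun y : E n => L * ‖y‖) (cocompact (E n)) atTop :=
          (tendsto_norm_cocompact_atTop (E := E n)).const_mul_atTop hL0
        have h3 := tendsto_atBot_add_const_left (cocompact (E n)) (u x + L * ‖a‖)
          (tendsto_neg_atTop_atBot.comp h2)
        refine h3.congr (fun y => ?_)
        simp [sub_eq_add_neg]
      refine tendsto_atBot_mono (fun y => ?_) h1
      have h4 : u (proj y) ≤ u x := hx (Set.mem_univ _)
      have h5 : ‖y‖ ≤ ‖y - a‖ + ‖a‖ := by
        have := norm_add_le (y - a) a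
        simpa using this
      nlinarith
    obtain ⟨y, hy⟩ := hcont.exists_forall_ge hlim
    by_cases hya : y = a
    · have := hy b
      simp only [hya, sub_self, norm_zero, mul_zero, sub_zero] at this
      linarith
    · exfalso
      have h6 := hu.2 y (fun z => L * ‖z - a‖)
        (contDiffAt_const.mul ((contDiffAt_norm ℝ (sub_ne_zero.mpr hya)).comp y
          (contDiffAt_id.sub contDiffAt_const)))
        (Filter.Eventually.of_forall fun z => hy z)
      change F _ ≤ 1 at h6
      rw [F_le_one_iff, norm_gradient_cone hL0.le hya] at h6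
      linarith
  refine le_of_forall_pos_le_add (fun ε hε => ?_)
  have hb := norm_nonneg (b - a)
  have h7 := key (√2 + ε / (‖b - a‖ + 1)) (by
    have : 0 < ε / (‖b - a‖ + 1) := by positivity
    linarith)
  have h8 : ε / (‖b - a‖ + 1) * ‖b - a‖ ≤ ε := by
    rw [div_mul_eq_mul_div, div_le_iff₀ (by positivity)]
    nlinarith
  nlinarith

/-- the cone function is a subsolution -/
lemma cone_sub (x : Torus n) :
    IsSubsolution (Ham : Torus n → E n → ℝ) 1 (fun y => √2 * D (y - x)) := by
  refine ⟨continuous_const.mul (continuous_D.comp (continuous_id.sub continuous_const)),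
    fun a φ hφ hmax => ?_⟩
  change F _ ≤ 1
  rw [F_le_one_iff]
  have hd : DifferentiableAt ℝ φ a := hφ.differentiableAt (by norm_num)
  have hs2 : 0 ≤ √2 := Real.sqrt_nonneg 2
  set g := gradient φ a with hg
  -- compare along the direction `-g`
  have hlow : ∀ᶠ y in 𝓝 a, φ a - √2 * ‖y - a‖ ≤ φ y := by
    filter_upwards [hmax] with y hy
    have h1 : D (proj a - x) ≤ D (proj y - x) + ‖y - a‖ := by
      have h2 : proj a - x = (proj y - x) + proj (a - y) := by
        rw [proj_sub]; abel
      rw [h2]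
      refine (D_add_le _ _).trans ?_
      have := D_proj_le (a - y)
      rw [norm_sub_rev] at this
      linarith
    have h3 : √2 * D (proj a - x) ≤ √2 * (D (proj y - x) + ‖y - a‖) :=
      mul_le_mul_of_nonneg_left h1 hs2
    change √2 * D (proj y - x) - φ y ≤ √2 * D (proj a - x) - φ a at hy
    linarith
  have hder : HasDerivAt (fun t : ℝ => φ (a - t • g)) (-(‖g‖ ^ 2)) 0 := by
    have h1 : HasDerivAt (fun t : ℝ => a - t • g) (-g) 0 := by
      have := ((hasDerivAt_id (0 : ℝ)).smul_const g).const_sub a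
      simpa using this
    have h2 : HasFDerivAt φ (fderiv ℝ φ a) (a - (0 : ℝ) • g) := by
      simpa using hd.hasFDerivAt
    have h3 := h2.comp_hasDerivAt (0 : ℝ) h1
    have h4 : fderiv ℝ φ a (-g) = -(‖g‖ ^ 2) := by
      rw [map_neg, ← inner_gradient_left, ← hg, real_inner_self_eq_norm_sq]
    rw [h4] at h3
    exact h3
  have hev : ∀ᶠ t : ℝ in 𝓝[>] 0, φ a - √2 * (t * ‖g‖) ≤ φ (a - t • g) := by
    have hc : Tendsto (fun t : ℝ => a - t • g) (𝓝 0) (𝓝 a) := by
      have : Continuous (fun t : ℝ => a - t • g) := by fun_prop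
      have h := this.tendsto 0
      simpa using h
    have h5 : ∀ᶠ t : ℝ in 𝓝[>] 0, φ a - √2 * ‖a - t • g - a‖ ≤ φ (a - t • g) :=
      (hc.eventually hlow).filter_mono nhdsWithin_le_nhds
    filter_upwards [h5, self_mem_nhdsWithin] with t ht ht0
    have ht0' : (0 : ℝ) < t := ht0
    have e : ‖a - t • g - a‖ = t * ‖g‖ := by
      rw [sub_sub_cancel_left, norm_neg, norm_smul, Real.norm_of_nonneg ht0'.le]
    rw [e] at ht
    exact ht
  have hslope := hder.tendsto_slope_zero_right
  have hge : ∀ᶠ t : ℝ in 𝓝[>] 0, -(√2 * ‖g‖) ≤ t⁻¹ • (φ (a - (0 + t) • g) - φ (a - (0 : ℝ) • g)) := by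
    filter_upwards [hev, self_mem_nhdsWithin] with t ht ht0
    have ht0' : (0 : ℝ) < t := ht0
    simp only [zero_add, zero_smul, sub_zero, smul_eq_mul]
    rw [inv_mul_eq_div, le_div_iff₀ ht0']
    nlinarith
  have hfin : -(√2 * ‖g‖) ≤ -(‖g‖ ^ 2) := ge_of_tendsto hslope hge
  have hgn := norm_nonneg g
  rcases eq_or_lt_of_le hgn with h0 | h0
  · rw [← h0]; exact hs2
  · nlinarith

lemma increments_bdd (x y : Torus n) : BddAbove (increments Ham x y) := by
  obtain ⟨a, rfl⟩ := proj_surjective x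
  obtain ⟨b, rfl⟩ := proj_surjective y
  refine ⟨√2 * ‖b - a‖, ?_⟩
  rintro r ⟨u, hu, rfl⟩
  rw [critVal_Ham] at hu
  exact sub_lipschitz hu a b

lemma increments_nonempty (x y : Torus n) : (increments (Ham : Torus n → E n → ℝ) x y).Nonempty :=
  ⟨_, _, by rw [critVal_Ham]; exact const_sub, rfl⟩

/-- explicit formula: `S_x(y) = √2 · dist(x,y)` -/
lemma S_eq (x y : Torus n) : S Ham x y = √2 * D (y - x) := by
  refine le_antisymm (csSup_le (increments_nonempty x y) ?_) ?_
  · rintro r ⟨u, hu, rfl⟩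
    rw [critVal_Ham] at hu
    obtain ⟨a, rfl⟩ := proj_surjective x
    obtain ⟨v, hv, hv'⟩ := exists_lift (y - proj a)
    have hy : y = proj (a + v) := by
      have : proj (a + v) = proj a + proj v := by
        funext i
        simp [proj]
      rw [this, hv]
      abel
    have := sub_lipschitz hu a (a + v)
    rw [← hy, add_sub_cancel_left, hv'] at this
    exact this
  · refine le_csSup (increments_bdd x y) ⟨fun y => √2 * D (y - x), ?_, ?_⟩
    · rw [critVal_Ham]; exact cone_sub x
    · simp [D_zero]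

/-- `S_x` is not a supersolution: the test function `⟨e,·⟩` with `|e| = 1` touches from below. -/
lemma not_super (hn : 1 ≤ n) (x : Torus n) :
    ¬ IsSupersolution (Ham : Torus n → E n → ℝ) (critVal (Ham : Torus n → E n → ℝ)) (S Ham x) := by
  rintro ⟨-, h⟩
  obtain ⟨a, rfl⟩ := proj_surjective x
  let e : E n := EuclideanSpace.single ⟨0, hn⟩ (1 : ℝ)
  have he : ‖e‖ = 1 := by simp [e]
  have h1 := h a (fun y => inner ℝ e (y - a))
    (contDiffAt_const.inner ℝ (contDiffAt_id.sub contDiffAt_const)) (by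
    have hround : ∀ᶠ y : E n in 𝓝 a, ‖y - a‖ < 1 / 2 := by
      have : Tendsto (fun y : E n => ‖y - a‖) (𝓝 a) (𝓝 0) := by
        have hc : Continuous (fun y : E n => ‖y - a‖) := by fun_prop
        have := hc.tendsto a
        simpa using this
      exact this.eventually (gt_mem_nhds (by norm_num))
    filter_upwards [hround] with y hy
    simp only [S_eq, sub_self, D_zero, mul_zero, inner_zero_right]
    have hD : D (proj y - proj a) = ‖y - a‖ := by
      rw [← proj_sub, D_eq, EuclideanSpace.norm_eq]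
      congr 1
      refine Finset.sum_congr rfl fun i _ => ?_
      have hi : |(y - a) i| ≤ 1 / 2 := by
        have := PiLp.norm_apply_le (y - a) i
        rw [Real.norm_eq_abs] at this
        linarith
      have := (AddCircle.norm_coe_eq_abs_iff (p := 1) (x := (y - a) i) (by norm_num)).2 (by
        simpa using hi)
      change ‖(((y - a) i : ℝ) : UnitAddCircle)‖ ^ 2 = _
      rw [this, Real.norm_eq_abs]
    rw [hD]
    have h2 : inner ℝ e (y - a) ≤ ‖y - a‖ := by
      have := real_inner_le_norm e (y - a)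
      rw [he, one_mul] at this
      exact this
    have h3 : ‖y - a‖ ≤ √2 * ‖y - a‖ := by
      have : (1 : ℝ) ≤ √2 := by
        rw [Real.one_le_sqrt]; norm_num
      nlinarith [norm_nonneg (y - a)]
    linarith)
  have hg : gradient (fun y : E n => inner ℝ e (y - a)) a = e := by
    have : HasGradientAt (fun y : E n => inner ℝ e (y - a)) e a := by
      rw [hasGradientAt_iff_hasFDerivAt]
      have h2 : HasFDerivAt (fun y : E n => (InnerProductSpace.toDual ℝ (E n) e) (y - a))
        ((InnerProductSpace.toDual ℝ (E n) e).comp (ContinuousLinearMap.id ℝ (E n))) a :=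
        (InnerProductSpace.toDual ℝ (E n) e).hasFDerivAt.comp a ((hasFDerivAt_id a).sub_const a)
      simpa using h2
    exact this.gradient
  rw [hg, critVal_Ham] at h1
  change (1 : ℝ) ≤ (‖e‖ ^ 2 - 1) ^ 2 at h1
  rw [he] at h1
  norm_num at h1

/-- **Negative answer to Q1.** In every dimension `n ≥ 1` there is a Hamiltonian `H` on
`𝕋ⁿ × ℝⁿ`, continuous and superlinear (even real-analytic and independent of `x`), such that for
every `x` the function `S_x` is a continuous viscosity subsolution but not a viscosity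
supersolution of `H(y,Du(y)) = c₀` on `𝕋ⁿ`; in particular no `S_x` is a viscosity solution.
The infimum defining `c₀` and the suprema defining `S_x(y)` are over non-empty sets which are
bounded below, respectively bounded above. -/
theorem result (n : ℕ) (hn : 1 ≤ n) :
    ∃ H : Torus n → E n → ℝ,
      Continuous (fun q : Torus n × E n => H q.1 q.2) ∧
      Superlinear H ∧
      (∃ G : E n → ℝ, ContDiff ℝ ⊤ G ∧ ∀ x p, H x p = G p) ∧
      {c : ℝ | ∃ u, IsSubsolution H c u}.Nonempty ∧
      BddBelow {c : ℝ | ∃ u, IsSubsolution H c u} ∧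
      (∀ x y, (increments H x y).Nonempty ∧ BddAbove (increments H x y)) ∧
      ∀ x, IsSubsolution H (critVal H) (S H x) ∧ ¬ IsSupersolution H (critVal H) (S H x) := by
  refine ⟨Ham, continuous_Ham, superlinear_Ham, ⟨F, contDiff_F, fun _ _ => rfl⟩,
    critSet_nonempty, critSet_bddBelow, fun x y => ⟨increments_nonempty x y, increments_bdd x y⟩,
    fun x => ⟨?_, not_super hn x⟩⟩
  rw [critVal_Ham]
  have : S Ham x = fun y => √2 * D (y - x) := funext (S_eq x)
  rw [this]
  exact cone_sub x

end Pool.Agent.Results.MP_12cf7c_an.NoCriticalPoint
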